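import Pool.Agent.helper81.CW.Spec1

open MeasureTheory Set
open scoped ENNReal

namespace Pool.Agent.helper81.CW

theorem U2_aux (n : ℕ) (e b : E n) (r s : ℝ) (he : ‖e‖ = 1) (hr : 0 ≤ r) (hs : 0 ≤ s)
    (h1 : ‖b‖ ^ 2 ≤ r ^ 2 + s ^ 2) (h2 : s ≤ inner ℝ e b) : ‖b - s • e‖ ≤ r := by
  have h3 : ‖b - s • e‖ ^ 2 ≤ r ^ 2 := by
    rw [norm_sub_sq_real, inner_smul_right, norm_smul, he, mul_one, Real.norm_eq_abs, sq_abs,
      real_inner_comm]
    nlinarith [mul_le_mul_of_nonneg_left h2 hs]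
  exact (sq_le_sq₀ (norm_nonneg _) hr).1 h3

theorem U2 : U2_stmt := by
  intro n e r x he hr hx
  have hsub : {b : E n | ‖b‖ ^ 2 ≤ r ^ 2 + x ∧ x ≤ (inner ℝ e b) ^ 2} ⊆
      Metric.closedBall (Real.sqrt x • e) r ∪ Metric.closedBall ((-Real.sqrt x) • e) r := by
    rintro b ⟨h1, h2⟩
    have hsq : Real.sqrt x ^ 2 = x := Real.sq_sqrt hx
    have habs : Real.sqrt x ≤ |inner ℝ e b| := by
      rw [← Real.sqrt_sq_eq_abs]
      exact Real.sqrt_le_sqrt h2
    rcases le_abs'.1 habs with h3 | h3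
    · right
      rw [Metric.mem_closedBall, dist_eq_norm]
      have h4 := U2_aux n e (-b) r (Real.sqrt x) he hr (Real.sqrt_nonneg x)
        (by rw [norm_neg, hsq]; exact h1) (by rw [inner_neg_right]; linarith)
      have h5 : b - (-Real.sqrt x) • e = -(-b - Real.sqrt x • e) := by
        rw [neg_smul]; abel
      rw [h5, norm_neg]
      exact h4
    · left
      rw [Metric.mem_closedBall, dist_eq_norm]
      exact U2_aux n e b r (Real.sqrt x) he hr (Real.sqrt_nonneg x) (by rw [hsq]; exact h1) h3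
  calc volume {b : E n | ‖b‖ ^ 2 ≤ r ^ 2 + x ∧ x ≤ (inner ℝ e b) ^ 2}
      ≤ volume (Metric.closedBall (Real.sqrt x • e) r ∪
          Metric.closedBall ((-Real.sqrt x) • e) r) := measure_mono hsub
    _ ≤ volume (Metric.closedBall (Real.sqrt x • e) r) +
          volume (Metric.closedBall ((-Real.sqrt x) • e) r) := measure_union_le _ _
    _ = 2 * volume (Metric.closedBall (0 : E n) r) := by
        rw [Measure.addHaar_closedBall_center volume (Real.sqrt x • e) r,
          Measure.addHaar_closedBall_center volume ((-Real.sqrt x) • e) r, two_mul]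

end Pool.Agent.helper81.CW
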