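import Pool.Agent.helper81.CW.Spec1

open MeasureTheory Set
open scoped ENNReal

namespace Pool.Agent.helper81.CW

theorem W1_nn_eq {n : ℕ} (z : E n) :
    nn z = ‖(WithLp.toLp 2 (fun i => -min (z i) 0) : E n)‖ := by
  rw [EuclideanSpace.norm_eq, nn]
  congr 1
  refine Finset.sum_congr rfl fun i _ => ?_
  simp

theorem W1_nn_nonneg {n : ℕ} (z : E n) : 0 ≤ nn z := Real.sqrt_nonneg _

theorem W1_nn_cont {n : ℕ} : Continuous (fun z : E n => nn z) := by
  unfold nn
  refine Real.continuous_sqrt.comp ?_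
  refine continuous_finsetSum _ fun i _ => ?_
  refine Continuous.pow ?_ 2
  refine Continuous.min ?_ continuous_const
  exact (EuclideanSpace.proj i).continuous

theorem W1_nn_convex {n : ℕ} : ConvexOn ℝ Set.univ (fun z : E n => nn z) := by
  refine ⟨convex_univ, ?_⟩
  intro x _ y _ a b ha hb hab
  have h1 : nn (a • x + b • y) ≤
      ‖(a • (WithLp.toLp 2 (fun i => -min (x i) 0) : E n) +
        b • (WithLp.toLp 2 (fun i => -min (y i) 0) : E n))‖ := by
    rw [EuclideanSpace.norm_eq, nn]
    apply Real.sqrt_le_sqrt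
    refine Finset.sum_le_sum fun i _ => ?_
    have e1 : (a • x + b • y) i = a * x i + b * y i := by simp
    have e2 : (a • (WithLp.toLp 2 (fun i => -min (x i) 0) : E n) +
        b • (WithLp.toLp 2 (fun i => -min (y i) 0) : E n)) i =
        -(a * min (x i) 0 + b * min (y i) 0) := by
      simp; ring
    rw [e1, e2, Real.norm_eq_abs, sq_abs, neg_sq]
    have h2 : a * min (x i) 0 + b * min (y i) 0 ≤ min (a * x i + b * y i) 0 := by
      refine le_min ?_ ?_
      · have h3 := mul_le_mul_of_nonneg_left (min_le_left (x i) 0) ha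
        have h4 := mul_le_mul_of_nonneg_left (min_le_left (y i) 0) hb
        linarith
      · have h3 := mul_nonpos_of_nonneg_of_nonpos ha (min_le_right (x i) 0)
        have h4 := mul_nonpos_of_nonneg_of_nonpos hb (min_le_right (y i) 0)
        linarith
    have h5 : min (a * x i + b * y i) 0 ≤ 0 := min_le_right _ _
    nlinarith
  refine h1.trans ((norm_add_le _ _).trans ?_)
  rw [norm_smul, norm_smul, Real.norm_of_nonneg ha, Real.norm_of_nonneg hb, ← W1_nn_eq,
    ← W1_nn_eq, smul_eq_mul, smul_eq_mul]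

theorem W1 : W1_stmt := by
  intro n
  refine ⟨⟨0, ?_⟩, ?_, ?_⟩
  · show ‖(0 : E n)‖ ^ 2 + Real.sqrt 2 * nn (0 : E n) ≤ 1 / 2
    have : nn (0 : E n) = 0 := by simp [nn]
    rw [this]
    simp
  · refine Metric.isCompact_of_isClosed_isBounded ?_ ?_
    · exact isClosed_le ((continuous_norm.pow 2).add (continuous_const.mul W1_nn_cont))
        continuous_const
    · refine (Metric.isBounded_closedBall (x := (0 : E n)) (r := 1)).subset ?_
      intro z hz
      have hz' : ‖z‖ ^ 2 + Real.sqrt 2 * nn z ≤ 1 / 2 := hz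
      have h1 : 0 ≤ Real.sqrt 2 * nn z := mul_nonneg (Real.sqrt_nonneg 2) (W1_nn_nonneg z)
      rw [Metric.mem_closedBall, dist_zero_right]
      nlinarith [norm_nonneg z]
  · have h1 : ConvexOn ℝ Set.univ (fun z : E n => ‖z‖ ^ 2 + Real.sqrt 2 * nn z) := by
      refine ConvexOn.add ?_ ?_
      · exact (convexOn_norm convex_univ).pow (fun _ _ => norm_nonneg _) 2
      · exact W1_nn_convex.smul (Real.sqrt_nonneg 2)
    have h2 := h1.convex_le (1 / 2)
    have h3 : M n = {x ∈ (Set.univ : Set (E n)) | ‖x‖ ^ 2 + Real.sqrt 2 * nn x ≤ 1 / 2} := by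
      ext z; simp [M]
    rw [h3]
    exact h2

end Pool.Agent.helper81.CW
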